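import Pool.Agent.Lib.Q5dc.Tan

/-!
# An elementary form of the dimension argument

Two polynomial families of the same number of parameters: if the second lies in the Zariski closure
of the first, has injective differential at one point, and some polynomial vanishes on the second
but not on the first, then we get a contradiction.
-/

set_option autoImplicit false

namespace Pool.Agent.Lib.D13R

open MvPolynomial

variable {k : Type*} [Field k]

/-- the line through `p` with direction `v` -/
noncomputable def line {ι : Type*} (p v : ι → k) : ι → Polynomial k :=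
  fun j => Polynomial.C (p j) + Polynomial.X * Polynomial.C (v j)

theorem coeff_zero_line {ι : Type*} (p v : ι → k) (f : MvPolynomial ι k) :
    (aeval (line p v) f).coeff 0 = eval p f := by
  induction f using MvPolynomial.induction_on with
  | C a => simp
  | add f g hf hg => simp [hf, hg]
  | mul_X f i hf =>
    rw [map_mul, Polynomial.mul_coeff_zero, hf, aeval_X, map_mul, eval_X]
    simp [line]

theorem coeff_one_line {ι : Type*} [Fintype ι] (p v : ι → k) (f : MvPolynomial ι k) :
    (aeval (line p v) f).coeff 1 = ∑ j, v j * eval p (pderiv j f) := by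
  classical
  induction f using MvPolynomial.induction_on with
  | C a =>
    rw [aeval_C, Polynomial.algebraMap_apply, Polynomial.coeff_C]
    simp
  | add f g hf hg =>
    rw [map_add, Polynomial.coeff_add, hf, hg, ← Finset.sum_add_distrib]
    refine Finset.sum_congr rfl fun j _ => ?_
    rw [map_add, map_add]
    ring
  | mul_X f i hf =>
    rw [map_mul, Polynomial.mul_coeff_one, hf, aeval_X, coeff_zero_line]
    have h1 : (line p v i).coeff 0 = p i := by simp [line]
    have h2 : (line p v i).coeff 1 = v i := by simp [line]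
    rw [h1, h2]
    have h3 : ∀ j, v j * eval p (pderiv j (f * X i)) =
        v j * eval p (pderiv j f) * p i + (if j = i then v j * eval p f else 0) := by
      intro j
      rw [Derivation.leibniz, map_add, smul_eq_mul, smul_eq_mul, map_mul, map_mul, eval_X]
      by_cases hji : j = i
      · subst hji
        rw [if_pos rfl, pderiv_X_self, map_one]
        ring
      · rw [if_neg hji, pderiv_X_of_ne (Ne.symm hji), map_zero]
        ring
    simp only [h3]
    rw [Finset.sum_add_distrib, Finset.sum_ite_eq' Finset.univ i, if_pos (Finset.mem_univ i),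
      ← Finset.sum_mul]
    ring

/-- the differential of a polynomial map at a point -/
noncomputable def dif {ι σ : Type*} [Fintype ι] (Φ : σ → MvPolynomial ι k) (p : ι → k) :
    (ι → k) →ₗ[k] (σ → k) where
  toFun v s := ∑ j, v j * eval p (pderiv j (Φ s))
  map_add' v w := by
    funext s
    simp only [Pi.add_apply]
    rw [← Finset.sum_add_distrib]
    exact Finset.sum_congr rfl fun j _ => by ring
  map_smul' c v := by
    funext s
    simp only [Pi.smul_apply, smul_eq_mul, RingHom.id_apply]
    rw [Finset.mul_sum]
    exact Finset.sum_congr rfl fun j _ => by ring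

theorem aeval_line_eval {ι : Type*} (p v : ι → k) (f : MvPolynomial ι k) (s : k) :
    (aeval (line p v) f).eval s = eval (fun j => p j + s * v j) f := by
  induction f using MvPolynomial.induction_on with
  | C a => simp
  | add f g hf hg => simp [hf, hg]
  | mul_X f i hf =>
    rw [map_mul, Polynomial.eval_mul, hf, aeval_X, map_mul, eval_X]
    have h1 : (line p v i).eval s = p i + s * v i := by
      unfold line
      rw [Polynomial.eval_add, Polynomial.eval_mul, Polynomial.eval_X, Polynomial.eval_C,
        Polynomial.eval_C]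
    rw [h1]

/-- linear combinations of the coordinates with independent differentials are algebraically
independent -/
theorem exists_indep [Infinite k] {ι σ : Type*} [Fintype ι] [Fintype σ]
    (Φ : σ → MvPolynomial ι k) (p : ι → k)
    (h2 : ∀ v : ι → k, (∀ s, (aeval (line p v) (Φ s)).coeff 1 = 0) → v = 0) :
    ∃ y : ι → MvPolynomial σ k,
      ∀ P : MvPolynomial ι k, aeval (fun i => aeval Φ (y i)) P = 0 → P = 0 := by
  classical
  have hinj : LinearMap.ker (dif Φ p) = ⊥ := by
    rw [LinearMap.ker_eq_bot']
    intro v hv
    apply h2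
    intro s
    rw [coeff_one_line]
    exact congrFun hv s
  obtain ⟨G, hG⟩ := LinearMap.exists_leftInverse_of_injective (dif Φ p) hinj
  refine ⟨fun i => ∑ s, C (G (Pi.single s 1) i) * X s, fun P hP => ?_⟩
  have hy : ∀ i, aeval Φ (∑ s, C (G (Pi.single s 1) i) * X s : MvPolynomial σ k) =
      ∑ s, C (G (Pi.single s 1) i) * Φ s := by
    intro i
    rw [map_sum]
    refine Finset.sum_congr rfl fun s _ => ?_
    rw [map_mul, aeval_X, aeval_C, MvPolynomial.algebraMap_eq]
  refine Q5dc.eq_zero_of_curves
    (Set.range fun w : ι → k => fun i => eval w (∑ s, C (G (Pi.single s 1) i) * Φ s))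
    (fun i => eval p (∑ s, C (G (Pi.single s 1) i) * Φ s)) ?_ P ?_
  · intro v
    refine ⟨fun i => Polynomial.divX
      (aeval (line p v) (∑ s, C (G (Pi.single s 1) i) * Φ s)), ?_, ?_⟩
    · intro i
      rw [← Polynomial.coeff_zero_eq_eval_zero, Polynomial.coeff_divX, map_sum]
      have h3 : ∀ s, (aeval (line p v) (C (G (Pi.single s 1) i) * Φ s)).coeff (0 + 1) =
          G (Pi.single s 1) i * dif Φ p v s := by
        intro s
        rw [map_mul, aeval_C, Polynomial.algebraMap_apply, Algebra.algebraMap_self,
          RingHom.id_apply, Polynomial.coeff_C_mul, zero_add, coeff_one_line]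
        rfl
      rw [Polynomial.finsetSum_coeff]
      simp only [h3]
      have h4 := congrArg (fun L => L v i) hG
      simp only [LinearMap.comp_apply, LinearMap.id_apply] at h4
      rw [← h4]
      have h5 : dif Φ p v = ∑ s, (dif Φ p v s) • (Pi.single s (1 : k) : σ → k) := by
        funext t
        rw [Finset.sum_apply]
        simp [Pi.single_apply]
      conv_rhs => rw [h5]
      rw [map_sum, Finset.sum_apply]
      refine Finset.sum_congr rfl fun s _ => ?_
      rw [map_smul, Pi.smul_apply, smul_eq_mul, mul_comm]
    · have huniv : {s : k | (fun i => eval p (∑ s, C (G (Pi.single s 1) i) * Φ s) +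
          s * (Polynomial.divX (aeval (line p v)
            (∑ s, C (G (Pi.single s 1) i) * Φ s))).eval s) ∈
          (Set.range fun w : ι → k => fun i => eval w (∑ s, C (G (Pi.single s 1) i) * Φ s))} =
          Set.univ := by
        rw [Set.eq_univ_iff_forall]
        intro s
        refine ⟨fun j => p j + s * v j, ?_⟩
        funext i
        show eval (fun j => p j + s * v j) (∑ s, C (G (Pi.single s 1) i) * Φ s) = _
        rw [← aeval_line_eval]
        set c := aeval (line p v) (∑ s, C (G (Pi.single s 1) i) * Φ s) with hc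
        have h6 : c.coeff 0 = eval p (∑ s, C (G (Pi.single s 1) i) * Φ s) := by
          rw [hc, coeff_zero_line]
        have h7 := Polynomial.divX_mul_X_add c
        conv_lhs => rw [← h7]
        rw [Polynomial.eval_add, Polynomial.eval_mul, Polynomial.eval_X, Polynomial.eval_C, h6]
        ring
      rw [huniv]
      exact Set.infinite_univ
  · rintro x ⟨w, rfl⟩
    have h8 := congrArg (eval w) hP
    rw [map_zero] at h8
    rw [← h8]
    simp only [hy]
    have h9 : ((aeval w : MvPolynomial ι k →ₐ[k] k).comp
        (aeval (fun i => ∑ s, C (G (Pi.single s 1) i) * Φ s))) =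
        (aeval (fun i => eval w (∑ s, C (G (Pi.single s 1) i) * Φ s)) :
          MvPolynomial ι k →ₐ[k] k) := by
      apply MvPolynomial.algHom_ext
      intro i
      simp only [AlgHom.comp_apply, aeval_X]
      rfl
    have h10 := congrArg (fun f => f P) h9
    simp only [AlgHom.comp_apply] at h10
    exact h10.symm

/-- the dimension argument -/
theorem dim_lemma [Infinite k] {B ι' σ : Type*} [Fintype ι'] [Fintype σ]
    [CommRing B] [IsDomain B] [Algebra k B]
    (hB : ∀ z : Option ι' → B, ¬ AlgebraicIndependent k z)
    (Ψ : σ → B) (Φ : σ → MvPolynomial ι' k)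
    (h1 : ∀ F : MvPolynomial σ k, aeval Ψ F = 0 → aeval Φ F = 0)
    (p : ι' → k)
    (h2 : ∀ v : ι' → k, (∀ s, (aeval (line p v) (Φ s)).coeff 1 = 0) → v = 0)
    (Q : MvPolynomial σ k) (h3 : aeval Φ Q = 0) (h4 : aeval Ψ Q ≠ 0) : False := by
  classical
  obtain ⟨y, hy⟩ := exists_indep Φ p h2
  set φ : MvPolynomial ι' k →ₐ[k] B := aeval (fun i => aeval Ψ (y i)) with hφ
  -- a relation
  have hrel : ∃ P : Polynomial (MvPolynomial ι' k), P ≠ 0 ∧
      P.eval₂ (φ : MvPolynomial ι' k →+* B) (aeval Ψ Q) = 0 := by
    have hdep := hB (fun o : Option ι' => o.elim (aeval Ψ Q) fun i => aeval Ψ (y i))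
    rw [algebraicIndependent_iff] at hdep
    push Not at hdep
    obtain ⟨P, hP, hP0⟩ := hdep
    refine ⟨optionEquivLeft k ι' P, ?_, ?_⟩
    · intro h
      apply hP0
      have := congrArg (optionEquivLeft k ι').symm h
      simpa using this
    · rw [← hP]
      have h7 : ((Polynomial.eval₂RingHom (φ : MvPolynomial ι' k →+* B) (aeval Ψ Q)).comp
          ((optionEquivLeft k ι').toRingEquiv :
            MvPolynomial (Option ι') k →+* Polynomial (MvPolynomial ι' k))) =
          ((aeval (fun o : Option ι' => (o.elim (aeval Ψ Q) fun i => aeval Ψ (y i) : B)) :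
            MvPolynomial (Option ι') k →ₐ[k] B) : MvPolynomial (Option ι') k →+* B) := by
        apply MvPolynomial.ringHom_ext
        · intro r
          simp [optionEquivLeft_C]
        · rintro (_ | i)
          · simp [optionEquivLeft_X_none]
          · simp [optionEquivLeft_X_some, hφ]
      exact congrArg (fun f => f P) h7
  obtain ⟨P, ⟨hP0, hP⟩, hmin⟩ := WellFounded.has_min
    (measure (fun P : Polynomial (MvPolynomial ι' k) => P.natDegree)).wf
    {P | P ≠ 0 ∧ P.eval₂ (φ : MvPolynomial ι' k →+* B) (aeval Ψ Q) = 0} hrel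
  have hcoeff : P.coeff 0 ≠ 0 := by
    intro h0
    have h5 : P = P.divX * Polynomial.X := by
      have := Polynomial.divX_mul_X_add P
      rw [h0, map_zero, add_zero] at this
      exact this.symm
    have h6 : P.divX ≠ 0 := by
      intro h
      rw [h, zero_mul] at h5
      exact hP0 h5
    have h7 : P.divX.eval₂ (φ : MvPolynomial ι' k →+* B) (aeval Ψ Q) = 0 := by
      rw [h5, Polynomial.eval₂_mul, Polynomial.eval₂_X] at hP
      exact (mul_eq_zero.1 hP).resolve_right h4
    apply hmin P.divX ⟨h6, h7⟩
    show P.divX.natDegree < P.natDegree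
    conv_rhs => rw [h5]
    rw [Polynomial.natDegree_mul_X h6]
    omega
  set F : MvPolynomial σ k := P.eval₂ ((aeval y : MvPolynomial ι' k →ₐ[k] MvPolynomial σ k) :
    MvPolynomial ι' k →+* MvPolynomial σ k) Q with hF
  have hFΨ : aeval Ψ F = 0 := by
    rw [← hP, hF]
    have h8 := Polynomial.hom_eval₂ P ((aeval y : MvPolynomial ι' k →ₐ[k] MvPolynomial σ k) :
      MvPolynomial ι' k →+* MvPolynomial σ k)
      ((aeval Ψ : MvPolynomial σ k →ₐ[k] B) :
        MvPolynomial σ k →+* B) Q
    have h9 : (((aeval Ψ : MvPolynomial σ k →ₐ[k] B) :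
        MvPolynomial σ k →+* B)).comp
        ((aeval y : MvPolynomial ι' k →ₐ[k] MvPolynomial σ k) :
          MvPolynomial ι' k →+* MvPolynomial σ k) =
        (φ : MvPolynomial ι' k →+* B) := by
      have h10 : (aeval Ψ : MvPolynomial σ k →ₐ[k] B).comp
          (aeval y : MvPolynomial ι' k →ₐ[k] MvPolynomial σ k) = φ := by
        apply MvPolynomial.algHom_ext
        intro i
        simp [hφ]
      rw [← h10]
      rfl
    rw [h9] at h8
    exact h8
  have hFΦ := h1 F hFΨ
  have h11 := Polynomial.hom_eval₂ P ((aeval y : MvPolynomial ι' k →ₐ[k] MvPolynomial σ k) :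
      MvPolynomial ι' k →+* MvPolynomial σ k)
      ((aeval Φ : MvPolynomial σ k →ₐ[k] MvPolynomial ι' k) :
        MvPolynomial σ k →+* MvPolynomial ι' k) Q
  have h12 : ((aeval Φ : MvPolynomial σ k →ₐ[k] MvPolynomial ι' k) :
        MvPolynomial σ k →+* MvPolynomial ι' k) Q = 0 := h3
  have h13 : ((aeval Φ : MvPolynomial σ k →ₐ[k] MvPolynomial ι' k) :
        MvPolynomial σ k →+* MvPolynomial ι' k) F = 0 := hFΦ
  rw [← hF, h13, h12, Polynomial.eval₂_at_zero] at h11
  apply hcoeff
  apply hy
  have h14 : (((aeval Φ : MvPolynomial σ k →ₐ[k] MvPolynomial ι' k) :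
      MvPolynomial σ k →+* MvPolynomial ι' k)).comp
      ((aeval y : MvPolynomial ι' k →ₐ[k] MvPolynomial σ k) :
        MvPolynomial ι' k →+* MvPolynomial σ k) =
      ((aeval (fun i => aeval Φ (y i)) : MvPolynomial ι' k →ₐ[k] MvPolynomial ι' k) :
        MvPolynomial ι' k →+* MvPolynomial ι' k) := by
    have h15 : (aeval Φ : MvPolynomial σ k →ₐ[k] MvPolynomial ι' k).comp
        (aeval y : MvPolynomial ι' k →ₐ[k] MvPolynomial σ k) =
        aeval (fun i => aeval Φ (y i)) := by
      apply MvPolynomial.algHom_ext
      intro i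
      simp
    rw [← h15]
    rfl
  rw [h14] at h11
  exact h11.symm

end Pool.Agent.Lib.D13R
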