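import Mathlib

/-!
# The family of triples of type (4,6,3)
-/

set_option autoImplicit false

namespace Pool.Agent.Lib.D13R

open Matrix

universe u

/-- the index type -/
abbrev Ix : Type := Fin 4 ⊕ Fin 6 ⊕ Fin 3

section blocks

variable (R : Type u) [CommRing R]

/-- inclusions of the three blocks -/
def Ia : Matrix Ix (Fin 4) R := Matrix.of fun x j => if x = Sum.inl j then 1 else 0
/-- inclusions of the three blocks -/
def Ib : Matrix Ix (Fin 6) R := Matrix.of fun x j => if x = Sum.inr (Sum.inl j) then 1 else 0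
/-- inclusions of the three blocks -/
def Ic : Matrix Ix (Fin 3) R := Matrix.of fun x j => if x = Sum.inr (Sum.inr j) then 1 else 0
/-- projections to the three blocks -/
def Pa : Matrix (Fin 4) Ix R := (Ia R)ᵀ
/-- projections to the three blocks -/
def Pb : Matrix (Fin 6) Ix R := (Ib R)ᵀ
/-- projections to the three blocks -/
def Pc : Matrix (Fin 3) Ix R := (Ic R)ᵀ

theorem PaIa : Pa R * Ia R = 1 := by
  ext i j
  simp [Pa, Ia, Matrix.mul_apply, Matrix.one_apply, eq_comm]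
theorem PbIb : Pb R * Ib R = 1 := by
  ext i j
  simp [Pb, Ib, Matrix.mul_apply, Matrix.one_apply, eq_comm]
theorem PcIc : Pc R * Ic R = 1 := by
  ext i j
  simp [Pc, Ic, Matrix.mul_apply, Matrix.one_apply, eq_comm]
theorem PaIb : Pa R * Ib R = 0 := by
  ext i j; simp [Pa, Ia, Ib, Matrix.mul_apply]
theorem PaIc : Pa R * Ic R = 0 := by
  ext i j; simp [Pa, Ia, Ic, Matrix.mul_apply]
theorem PbIa : Pb R * Ia R = 0 := by
  ext i j; simp [Pb, Ia, Ib, Matrix.mul_apply]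
theorem PbIc : Pb R * Ic R = 0 := by
  ext i j; simp [Pb, Ib, Ic, Matrix.mul_apply]
theorem PcIa : Pc R * Ia R = 0 := by
  ext i j; simp [Pc, Ia, Ic, Matrix.mul_apply]
theorem PcIb : Pc R * Ib R = 0 := by
  ext i j; simp [Pc, Ib, Ic, Matrix.mul_apply]

variable {m : Type}

theorem PaIa' (M : Matrix (Fin 4) m R) : Pa R * (Ia R * M) = M := by
  rw [← Matrix.mul_assoc, PaIa, Matrix.one_mul]
theorem PbIb' (M : Matrix (Fin 6) m R) : Pb R * (Ib R * M) = M := by
  rw [← Matrix.mul_assoc, PbIb, Matrix.one_mul]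
theorem PcIc' (M : Matrix (Fin 3) m R) : Pc R * (Ic R * M) = M := by
  rw [← Matrix.mul_assoc, PcIc, Matrix.one_mul]
theorem PaIb' (M : Matrix (Fin 6) m R) : Pa R * (Ib R * M) = 0 := by
  rw [← Matrix.mul_assoc, PaIb, Matrix.zero_mul]
theorem PaIc' (M : Matrix (Fin 3) m R) : Pa R * (Ic R * M) = 0 := by
  rw [← Matrix.mul_assoc, PaIc, Matrix.zero_mul]
theorem PbIa' (M : Matrix (Fin 4) m R) : Pb R * (Ia R * M) = 0 := by
  rw [← Matrix.mul_assoc, PbIa, Matrix.zero_mul]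
theorem PbIc' (M : Matrix (Fin 3) m R) : Pb R * (Ic R * M) = 0 := by
  rw [← Matrix.mul_assoc, PbIc, Matrix.zero_mul]
theorem PcIa' (M : Matrix (Fin 4) m R) : Pc R * (Ia R * M) = 0 := by
  rw [← Matrix.mul_assoc, PcIa, Matrix.zero_mul]
theorem PcIb' (M : Matrix (Fin 6) m R) : Pc R * (Ib R * M) = 0 := by
  rw [← Matrix.mul_assoc, PcIb, Matrix.zero_mul]

end blocks

variable {R : Type u} [CommRing R]

/-- strictly lower triangular block matrix -/
def lowT (P : Matrix (Fin 6) (Fin 4) R) (S : Matrix (Fin 3) (Fin 4) R)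
    (Q : Matrix (Fin 3) (Fin 6) R) : Matrix Ix Ix R :=
  Ib R * P * Pa R + Ic R * S * Pa R + Ic R * Q * Pb R

/-- strictly upper triangular block matrix -/
def upN (A : Matrix (Fin 4) (Fin 6) R) (B : Matrix (Fin 4) (Fin 3) R)
    (C : Matrix (Fin 6) (Fin 3) R) : Matrix Ix Ix R :=
  Ia R * A * Pb R + Ia R * B * Pc R + Ib R * C * Pc R

theorem lowT_mul (P P' : Matrix (Fin 6) (Fin 4) R) (S S' : Matrix (Fin 3) (Fin 4) R)
    (Q Q' : Matrix (Fin 3) (Fin 6) R) :
    lowT P S Q * lowT P' S' Q' = Ic R * (Q * P') * Pa R := by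
  unfold lowT
  simp only [Matrix.add_mul, Matrix.mul_add, Matrix.mul_assoc, PaIb', PaIc', PbIb', PbIc',
    Matrix.mul_zero, add_zero, zero_add]

theorem lowT_cube (P P' P'' : Matrix (Fin 6) (Fin 4) R) (S S' S'' : Matrix (Fin 3) (Fin 4) R)
    (Q Q' Q'' : Matrix (Fin 3) (Fin 6) R) :
    lowT P S Q * lowT P' S' Q' * lowT P'' S'' Q'' = 0 := by
  rw [lowT_mul]
  unfold lowT
  simp only [Matrix.mul_add, Matrix.mul_assoc, PaIb', PaIc', Matrix.mul_zero, add_zero]

theorem upN_cube (A : Matrix (Fin 4) (Fin 6) R) (B : Matrix (Fin 4) (Fin 3) R)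
    (C : Matrix (Fin 6) (Fin 3) R) : upN A B C * (upN A B C * upN A B C) = 0 := by
  unfold upN
  simp only [Matrix.add_mul, Matrix.mul_add, Matrix.mul_assoc, PbIb', PbIa', PcIa', PcIb',
    Matrix.mul_zero, add_zero, zero_add]

theorem unip (A : Matrix (Fin 4) (Fin 6) R) (B : Matrix (Fin 4) (Fin 3) R)
    (C : Matrix (Fin 6) (Fin 3) R) :
    (1 + upN A B C) * (1 - upN A B C + upN A B C * upN A B C) = 1 ∧
      (1 - upN A B C + upN A B C * upN A B C) * (1 + upN A B C) = 1 := by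
  have h := upN_cube A B C
  set N := upN A B C
  constructor
  · calc (1 + N) * (1 - N + N * N) = 1 + N * (N * N) := by noncomm_ring
      _ = 1 := by rw [h, add_zero]
  · calc (1 - N + N * N) * (1 + N) = 1 + N * (N * N) := by noncomm_ring
      _ = 1 := by rw [h, add_zero]

/-- the matrix of the linear system `Q_(s+1) P_(s+2) = Q_(s+2) P_(s+1)` -/
def Lam (P : Fin 3 → Matrix (Fin 6) (Fin 4) R) : Matrix (Fin 3 × Fin 6) (Fin 3 × Fin 4) R :=
  Matrix.of fun x y => (if x.1 = y.1 + 1 then P (y.1 + 2) x.2 y.2 else 0) -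
    (if x.1 = y.1 + 2 then P (y.1 + 1) x.2 y.2 else 0)

/-- the three matrices given by one -/
def Qof (q : Matrix (Fin 3) (Fin 3 × Fin 6) R) (i : Fin 3) : Matrix (Fin 3) (Fin 6) R :=
  Matrix.of fun m l => q m (i, l)

theorem Lam_sol (P : Fin 3 → Matrix (Fin 6) (Fin 4) R) (q : Matrix (Fin 3) (Fin 3 × Fin 6) R)
    (h : q * Lam P = 0) (s : Fin 3) : Qof q (s + 1) * P (s + 2) = Qof q (s + 2) * P (s + 1) := by
  ext m j
  have h1 := congrFun (congrFun h m) (s, j)
  rw [Matrix.mul_apply, Fintype.sum_prod_type] at h1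
  simp only [Lam, Matrix.of_apply, mul_sub, mul_ite, mul_zero, Finset.sum_sub_distrib,
    Matrix.zero_apply] at h1
  rw [Matrix.mul_apply, Matrix.mul_apply]
  simp only [Qof, Matrix.of_apply]
  have h2 : ∀ t : Fin 3, ∀ g : Fin 3 → Fin 6 → R,
      ∑ x : Fin 3, ∑ l : Fin 6, (if x = t then g x l else 0) = ∑ l, g t l := by
    intro t g
    rw [Finset.sum_comm]
    refine Finset.sum_congr rfl fun l _ => ?_
    rw [Finset.sum_ite_eq' Finset.univ t, if_pos (Finset.mem_univ _)]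
  rw [h2 (s + 1) (fun x l => q m (x, l) * P (s + 2) l j),
    h2 (s + 2) (fun x l => q m (x, l) * P (s + 1) l j)] at h1
  exact sub_eq_zero.1 h1

theorem Lam_sol' (P : Fin 3 → Matrix (Fin 6) (Fin 4) R) (q : Matrix (Fin 3) (Fin 3 × Fin 6) R)
    (h : q * Lam P = 0) (i j : Fin 3) : Qof q i * P j = Qof q j * P i := by
  have h0 := Lam_sol P q h 0
  have h1 := Lam_sol P q h 1
  have h2 := Lam_sol P q h 2
  fin_cases i <;> fin_cases j
  · rfl
  · exact h2
  · exact h1.symm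
  · exact h2.symm
  · rfl
  · exact h0
  · exact h1
  · exact h0.symm
  · rfl

/-- the matrix `ρ` -/
def posL : List ((Fin 3 × Fin 4) × (Fin 3 × Fin 6)) :=
  [((0, 1), (1, 3)), ((0, 3), (1, 0)), ((1, 0), (2, 5)), ((1, 2), (2, 1)), ((2, 1), (0, 4)),
    ((2, 1), (1, 1)), ((2, 3), (0, 2)), ((2, 3), (1, 5))]
/-- the matrix `ρ` -/
def negL : List ((Fin 3 × Fin 4) × (Fin 3 × Fin 6)) :=
  [((0, 0), (1, 0)), ((0, 0), (2, 2)), ((0, 2), (1, 3)), ((0, 2), (2, 4)), ((1, 1), (0, 3)),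
    ((1, 3), (0, 0)), ((2, 0), (1, 5)), ((2, 2), (1, 1))]

/-- a left inverse of `Lam P0` -/
def rho (R : Type u) [CommRing R] : Matrix (Fin 3 × Fin 4) (Fin 3 × Fin 6) R :=
  Matrix.of fun t x => (if (t, x) ∈ posL then 1 else 0) - (if (t, x) ∈ negL then 1 else 0)

/-- the positions of the ones of `P0` -/
def baseL : List (Fin 3 × Fin 6 × Fin 4) :=
  [(0, 5, 0), (0, 1, 2), (1, 2, 0), (1, 4, 1), (1, 4, 2), (1, 2, 3), (2, 3, 1), (2, 0, 3)]

/-- the base point -/
def P0 (R : Type u) [CommRing R] (i : Fin 3) : Matrix (Fin 6) (Fin 4) R :=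
  Matrix.of fun l j => if (i, l, j) ∈ baseL then 1 else 0

/-- the free coordinates -/
def kap : Fin 6 → Fin 3 × Fin 6 := ![(0, 1), (0, 5), (1, 2), (1, 4), (2, 0), (2, 3)]

/-- the kernel of `Lam P0` -/
def Kk (R : Type u) [CommRing R] : Matrix (Fin 6) (Fin 3 × Fin 6) R :=
  Matrix.of fun r x => if x = kap r then 1 else 0

/-- a right inverse of `(P0 0 | P0 1 | P0 2)` -/
def secL : List (Fin 3 × Fin 4 × Fin 6) :=
  [(2, 3, 0), (0, 2, 1), (1, 0, 2), (2, 1, 3), (1, 1, 4), (0, 0, 5)]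
/-- a right inverse of `(P0 0 | P0 1 | P0 2)` -/
def Sec (R : Type u) [CommRing R] (i : Fin 3) : Matrix (Fin 4) (Fin 6) R :=
  Matrix.of fun j l => if (i, j, l) ∈ secL then 1 else 0

/-- the base value of the parameters of `Q` -/
def cc0 (R : Type u) [CommRing R] : Matrix (Fin 3) (Fin 6) R :=
  Matrix.of fun m r => if (r : ℕ) = m then 1 else 0

section castint

theorem rho_int : rho ℤ * Lam (P0 ℤ) = 1 := by decide +kernel
theorem Kk_int : Kk ℤ * Lam (P0 ℤ) = 0 := by decide +kernel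
theorem KkT_int : Kk ℤ * (Kk ℤ)ᵀ = 1 := by decide +kernel
theorem Sec_int : ∑ i, P0 ℤ i * Sec ℤ i = 1 := by decide +kernel
theorem cc0_int : ∑ i, Qof (cc0 ℤ * Kk ℤ) i * (Qof (cc0 ℤ * Kk ℤ) i)ᵀ = 1 := by decide +kernel

end castint

end Pool.Agent.Lib.D13R
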