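import Pool.Agent.Lib.D13R.Phi

/-!
# The differential of the family at the base point is injective
-/

set_option autoImplicit false

namespace Pool.Agent.Lib.D13R

open Matrix

variable {k : Type*} [Field k]

/-- constant coefficients -/
noncomputable def m0 {m n : Type*} (M : Matrix m n (Polynomial k)) : Matrix m n k :=
  M.map (Polynomial.constantCoeff : Polynomial k →+* k)

/-- coefficients of `X` -/
noncomputable def m1 {m n : Type*} (M : Matrix m n (Polynomial k)) : Matrix m n k :=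
  M.map fun f => f.coeff 1

theorem m0_mul {l m n : Type*} [Fintype m] (M : Matrix l m (Polynomial k))
    (N : Matrix m n (Polynomial k)) : m0 (M * N) = m0 M * m0 N := by
  unfold m0
  rw [Matrix.map_mul]

theorem m1_mul {l m n : Type*} [Fintype m] (M : Matrix l m (Polynomial k))
    (N : Matrix m n (Polynomial k)) : m1 (M * N) = m0 M * m1 N + m1 M * m0 N := by
  ext i j
  simp only [m0, m1, Matrix.map_apply, Matrix.mul_apply, Matrix.add_apply,
    Polynomial.finsetSum_coeff, Polynomial.mul_coeff_one, Polynomial.constantCoeff_apply]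
  rw [Finset.sum_add_distrib]

theorem m0_add {m n : Type*} (M N : Matrix m n (Polynomial k)) :
    m0 (M + N) = m0 M + m0 N := by ext i j; simp [m0]
theorem m0_sub {m n : Type*} (M N : Matrix m n (Polynomial k)) :
    m0 (M - N) = m0 M - m0 N := by ext i j; simp [m0]
theorem m1_add {m n : Type*} (M N : Matrix m n (Polynomial k)) :
    m1 (M + N) = m1 M + m1 N := by ext i j; simp [m1]
theorem m1_sub {m n : Type*} (M N : Matrix m n (Polynomial k)) :
    m1 (M - N) = m1 M - m1 N := by ext i j; simp [m1]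

theorem m0_one : m0 (1 : Matrix Ix Ix (Polynomial k)) = 1 :=
  Matrix.map_one _ (map_zero _) (map_one _)
theorem m1_one : m1 (1 : Matrix Ix Ix (Polynomial k)) = 0 := by
  ext i j
  simp only [m1, Matrix.map_apply, Matrix.one_apply, Matrix.zero_apply]
  split_ifs
  · rw [Polynomial.coeff_one]; simp
  · simp

theorem m0_Ia : m0 (Ia (Polynomial k)) = Ia k := Ia_map _
theorem m0_Ib : m0 (Ib (Polynomial k)) = Ib k := Ib_map _
theorem m0_Ic : m0 (Ic (Polynomial k)) = Ic k := Ic_map _
theorem m0_Pa : m0 (Pa (Polynomial k)) = Pa k := Pa_map _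
theorem m0_Pb : m0 (Pb (Polynomial k)) = Pb k := Pb_map _
theorem m0_Pc : m0 (Pc (Polynomial k)) = Pc k := Pc_map _
theorem m1_Ia : m1 (Ia (Polynomial k)) = 0 := by
  ext x j; simp only [m1, Ia, Matrix.map_apply, Matrix.of_apply]
  split_ifs <;> simp [Polynomial.coeff_one]
theorem m1_Ib : m1 (Ib (Polynomial k)) = 0 := by
  ext x j; simp only [m1, Ib, Matrix.map_apply, Matrix.of_apply]
  split_ifs <;> simp [Polynomial.coeff_one]
theorem m1_Ic : m1 (Ic (Polynomial k)) = 0 := by
  ext x j; simp only [m1, Ic, Matrix.map_apply, Matrix.of_apply]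
  split_ifs <;> simp [Polynomial.coeff_one]
theorem m1_Pa : m1 (Pa (Polynomial k)) = 0 := by
  ext x j; simp only [m1, Pa, Ia, Matrix.map_apply, Matrix.of_apply, Matrix.transpose_apply]
  split_ifs <;> simp [Polynomial.coeff_one]
theorem m1_Pb : m1 (Pb (Polynomial k)) = 0 := by
  ext x j; simp only [m1, Pb, Ib, Matrix.map_apply, Matrix.of_apply, Matrix.transpose_apply]
  split_ifs <;> simp [Polynomial.coeff_one]
theorem m1_Pc : m1 (Pc (Polynomial k)) = 0 := by
  ext x j; simp only [m1, Pc, Ic, Matrix.map_apply, Matrix.of_apply, Matrix.transpose_apply]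
  split_ifs <;> simp [Polynomial.coeff_one]
theorem m0_Kk : m0 (Kk (Polynomial k)) = Kk k := Kk_map _
theorem m1_Kk : m1 (Kk (Polynomial k)) = 0 := by
  ext x j; simp only [m1, Kk, Matrix.map_apply, Matrix.of_apply]
  split_ifs <;> simp [Polynomial.coeff_one]

theorem m0_lowT (P : Matrix (Fin 6) (Fin 4) (Polynomial k)) (S : Matrix (Fin 3) (Fin 4) _)
    (Q : Matrix (Fin 3) (Fin 6) (Polynomial k)) :
    m0 (lowT P S Q) = lowT (m0 P) (m0 S) (m0 Q) := lowT_map _ _ _ _

theorem m1_lowT (P : Matrix (Fin 6) (Fin 4) (Polynomial k)) (S : Matrix (Fin 3) (Fin 4) _)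
    (Q : Matrix (Fin 3) (Fin 6) (Polynomial k)) :
    m1 (lowT P S Q) = lowT (m1 P) (m1 S) (m1 Q) := by
  unfold lowT
  simp only [m1_add, m1_mul, m0_mul, m0_Ib, m0_Ic, m0_Pa, m0_Pb, m1_Ib, m1_Ic, m1_Pa, m1_Pb,
    Matrix.mul_zero, Matrix.zero_mul, zero_add, add_zero]

theorem m1_upN (A : Matrix (Fin 4) (Fin 6) (Polynomial k)) (B : Matrix (Fin 4) (Fin 3) _)
    (C : Matrix (Fin 6) (Fin 3) (Polynomial k)) :
    m1 (upN A B C) = upN (m1 A) (m1 B) (m1 C) := by
  unfold upN
  simp only [m1_add, m1_mul, m0_mul, m0_Ib, m0_Ia, m0_Pc, m0_Pb, m1_Ib, m1_Ia, m1_Pc, m1_Pb,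
    Matrix.mul_zero, Matrix.zero_mul, zero_add, add_zero]

/-- the base point -/
def pt (R : Type*) [CommRing R] : Pr → R
  | Sum.inl (i, l, j) => P0 R i l j
  | Sum.inr (Sum.inl _) => 0
  | Sum.inr (Sum.inr (Sum.inl (m, r))) => cc0 R m r
  | Sum.inr (Sum.inr (Sum.inr _)) => 0

theorem pP_pt (R : Type*) [CommRing R] : pP (pt R) = P0 R := rfl
theorem pR_pt (R : Type*) [CommRing R] (i : Fin 3) : pR (pt R) i = 0 := rfl
theorem pc_pt (R : Type*) [CommRing R] : pc (pt R) = cc0 R := rfl
theorem pA_pt (R : Type*) [CommRing R] : pA (pt R) = 0 := rfl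
theorem pB_pt (R : Type*) [CommRing R] : pB (pt R) = 0 := rfl
theorem pC_pt (R : Type*) [CommRing R] : pC (pt R) = 0 := rfl

theorem upN_zero (R : Type*) [CommRing R] : upN (0 : Matrix (Fin 4) (Fin 6) R) 0 0 = 0 := by
  unfold upN
  simp

theorem Nu_pt (R : Type*) [CommRing R] : Nu (pt R) = 0 := by
  unfold Nu
  rw [pA_pt, pB_pt, pC_pt, upN_zero]

/-- injectivity of the differential -/
theorem jac (v : Pr → k) (h : ∀ i, m1 (Phi (line (pt k) v) i) = 0) : v = 0 := by
  set w : Pr → Polynomial k := line (pt k) v with hw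
  have hw0 : (fun t => (Polynomial.constantCoeff : Polynomial k →+* k) (w t)) = pt k := by
    funext t
    simp [hw, line]
  have hw1 : ∀ t, (w t).coeff 1 = v t := by
    intro t
    simp [hw, line]
  -- constant coefficients
  have hN0 : m0 (Nu w) = 0 := by
    unfold m0
    rw [Nu_map, hw0, Nu_pt]
  have hT0 : ∀ i, m0 (Th w i) = lowT (P0 k i) 0 (Qof (cc0 k * Kk k) i) := by
    intro i
    unfold m0
    rw [Th_map, hw0]
    unfold Th
    rw [pR_pt, pc_pt, pP_pt, qq_base (P0 k) (cc0 k) (rho_P0 k) (Kk_P0 k)]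
  -- linear coefficients
  have hN1 : m1 (Nu w) = upN (pA v) (pB v) (pC v) := by
    unfold Nu
    rw [m1_upN]
    congr 1
    · ext x y; exact hw1 _
    · ext x y; exact hw1 _
    · ext x y; exact hw1 _
  have hT1 : ∀ i, m1 (Th w i) = lowT (pP v i) (pR v i) (m1 (Qof (qq (pP w) (pc w)) i)) := by
    intro i
    unfold Th
    rw [m1_lowT]
    congr 1
    · ext x y; exact hw1 _
    · ext x y; exact hw1 _
  have hE : ∀ i, m1 (Th w i) + m1 (Nu w) * m0 (Th w i) - m0 (Th w i) * m1 (Nu w) = 0 := by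
    intro i
    rw [← h i]
    unfold Phi
    simp only [m1_mul, m0_mul, m1_add, m1_sub, m0_add, m0_sub, m0_one, m1_one, hN0,
      Matrix.mul_zero, Matrix.zero_mul, add_zero, zero_add, sub_zero, zero_sub,
      Matrix.one_mul, Matrix.mul_one, Matrix.mul_neg]
    abel
  simp only [hT0, hT1, hN1] at hE
  -- abbreviations
  set Q0 : Fin 3 → Matrix (Fin 3) (Fin 6) k := fun i => Qof (cc0 k * Kk k) i with hQ0
  have hQQ : ∑ i, Q0 i * (Q0 i)ᵀ = 1 := cc0_base k
  have hPP : ∑ i, P0 k i * Sec k i = 1 := Sec_P0 k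
  -- block (a,b)
  have hab : ∀ i, pB v * Q0 i = 0 := by
    intro i
    have h1 := congrArg (fun M => Pa k * M * Ib k) (hE i)
    unfold lowT upN at h1
    simp only [Matrix.add_mul, Matrix.mul_add, Matrix.sub_mul, Matrix.mul_sub, Matrix.mul_assoc,
      PaIa', PaIb', PaIc', PbIa', PbIb', PbIc', PcIa', PcIb', PcIc', PaIa, PaIb, PaIc, PbIa, PbIb,
      PbIc, PcIa, PcIb, PcIc, Matrix.mul_zero, Matrix.zero_mul, add_zero, zero_add, sub_zero,
      zero_sub, Matrix.mul_one] at h1
    exact h1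
  have hB : pB v = 0 := by
    calc pB v = pB v * ∑ i, Q0 i * (Q0 i)ᵀ := by rw [hQQ, Matrix.mul_one]
      _ = ∑ i, pB v * Q0 i * (Q0 i)ᵀ := by
        rw [Matrix.mul_sum]
        exact Finset.sum_congr rfl fun i _ => (Matrix.mul_assoc _ _ _).symm
      _ = 0 := Finset.sum_eq_zero fun i _ => by rw [hab i, Matrix.zero_mul]
  have haa : ∀ i, pA v * P0 k i = 0 := by
    intro i
    have h1 := congrArg (fun M => Pa k * M * Ia k) (hE i)
    unfold lowT upN at h1
    simp only [Matrix.add_mul, Matrix.mul_add, Matrix.sub_mul, Matrix.mul_sub, Matrix.mul_assoc,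
      PaIa', PaIb', PaIc', PbIa', PbIb', PbIc', PcIa', PcIb', PcIc', PaIa, PaIb, PaIc, PbIa, PbIb,
      PbIc, PcIa, PcIb, PcIc, Matrix.mul_zero, Matrix.zero_mul, add_zero, zero_add, sub_zero,
      zero_sub, Matrix.mul_one] at h1
    exact h1
  have hA : pA v = 0 := by
    calc pA v = pA v * ∑ i, P0 k i * Sec k i := by rw [hPP, Matrix.mul_one]
      _ = ∑ i, pA v * P0 k i * Sec k i := by
        rw [Matrix.mul_sum]
        exact Finset.sum_congr rfl fun i _ => (Matrix.mul_assoc _ _ _).symm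
      _ = 0 := Finset.sum_eq_zero fun i _ => by rw [haa i, Matrix.zero_mul]
  have hbb : ∀ i, pC v * Q0 i = 0 := by
    intro i
    have h1 := congrArg (fun M => Pb k * M * Ib k) (hE i)
    unfold lowT upN at h1
    simp only [Matrix.add_mul, Matrix.mul_add, Matrix.sub_mul, Matrix.mul_sub, Matrix.mul_assoc,
      PaIa', PaIb', PaIc', PbIa', PbIb', PbIc', PcIa', PcIb', PcIc', PaIa, PaIb, PaIc, PbIa, PbIb,
      PbIc, PcIa, PcIb, PcIc, Matrix.mul_zero, Matrix.zero_mul, add_zero, zero_add, sub_zero,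
      zero_sub, Matrix.mul_one, hA] at h1
    exact h1
  have hC : pC v = 0 := by
    calc pC v = pC v * ∑ i, Q0 i * (Q0 i)ᵀ := by rw [hQQ, Matrix.mul_one]
      _ = ∑ i, pC v * Q0 i * (Q0 i)ᵀ := by
        rw [Matrix.mul_sum]
        exact Finset.sum_congr rfl fun i _ => (Matrix.mul_assoc _ _ _).symm
      _ = 0 := Finset.sum_eq_zero fun i _ => by rw [hbb i, Matrix.zero_mul]
  simp only [hA, hB, hC, upN_zero, Matrix.mul_zero, Matrix.zero_mul, add_zero, sub_zero] at hE
  have hP : ∀ i, pP v i = 0 := by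
    intro i
    have h1 := congrArg (fun M => Pb k * M * Ia k) (hE i)
    unfold lowT at h1
    simp only [Matrix.add_mul, Matrix.mul_add, Matrix.mul_assoc,
      PbIa', PbIb', PbIc', PaIa, PbIa, Matrix.mul_zero, Matrix.zero_mul, add_zero, zero_add,
      Matrix.mul_one] at h1
    exact h1
  have hR : ∀ i, pR v i = 0 := by
    intro i
    have h1 := congrArg (fun M => Pc k * M * Ia k) (hE i)
    unfold lowT at h1
    simp only [Matrix.add_mul, Matrix.mul_add, Matrix.mul_assoc,
      PcIa', PcIb', PcIc', PaIa, PbIa, Matrix.mul_zero, Matrix.zero_mul, add_zero, zero_add,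
      Matrix.mul_one] at h1
    exact h1
  have hQ : ∀ i, m1 (Qof (qq (pP w) (pc w)) i) = 0 := by
    intro i
    have h1 := congrArg (fun M => Pc k * M * Ib k) (hE i)
    unfold lowT at h1
    simp only [Matrix.add_mul, Matrix.mul_add, Matrix.mul_assoc,
      PcIa', PcIb', PcIc', PaIb, PbIb, Matrix.mul_zero, Matrix.zero_mul, add_zero, zero_add,
      Matrix.mul_one] at h1
    exact h1
  -- `P` does not move
  have hPw : pP w = P0 (Polynomial k) := by
    funext i
    refine Matrix.ext fun l j => ?_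
    have h1 : v (Sum.inl (i, l, j)) = 0 := congrFun (congrFun (hP i) l) j
    have h2 : (pP w i) l j = Polynomial.C (pt k (Sum.inl (i, l, j))) +
        Polynomial.X * Polynomial.C (v (Sum.inl (i, l, j))) := rfl
    rw [h2, h1, map_zero, mul_zero, add_zero]
    have h3 := congrFun (congrFun (P0_map (R := k) (Polynomial.C : k →+* Polynomial k) i) l) j
    exact h3
  have hqw : qq (pP w) (pc w) = pc w * Kk (Polynomial k) := by
    rw [hPw]
    exact qq_base _ _ (rho_P0 _) (Kk_P0 _)
  have hc1 : pc v * Kk k = 0 := by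
    ext m ⟨i, l⟩
    have h1 := congrFun (congrFun (hQ i) m) l
    rw [hqw] at h1
    have h2 : m1 (pc w * Kk (Polynomial k)) = pc v * Kk k := by
      rw [m1_mul, m1_Kk, m0_Kk, Matrix.mul_zero, zero_add]
      congr 1
      ext x y
      exact hw1 _
    rw [← h2]
    exact h1
  have hc : pc v = 0 := by
    calc pc v = pc v * (Kk k * (Kk k)ᵀ) := by rw [KkT, Matrix.mul_one]
      _ = 0 := by rw [← Matrix.mul_assoc, hc1, Matrix.zero_mul]
  funext t
  rcases t with ⟨i, l, j⟩ | ⟨i, m, j⟩ | ⟨m, r⟩ | ⟨x, y⟩ | ⟨x, y⟩ | ⟨x, y⟩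
  · exact congrFun (congrFun (hP i) l) j
  · exact congrFun (congrFun (hR i) m) j
  · exact congrFun (congrFun hc m) r
  · exact congrFun (congrFun hA x) y
  · exact congrFun (congrFun hB x) y
  · exact congrFun (congrFun hC x) y

end Pool.Agent.Lib.D13R
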