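import Pool.Agent.Lib.D13R.Jac
import Pool.Agent.Lib.TSQ.Bridge

/-!
# Commuting nilpotent triples of size 13 that are not limits of curvilinear triples

The statement here has the dimension bound for the curvilinear triples as a hypothesis.
-/

set_option autoImplicit false

namespace Pool.Agent.Lib.D13R

open MvPolynomial Matrix

/-- a numbering of the index type -/
def e13 : Ix ≃ Fin 13 :=
  (Equiv.sumCongr (Equiv.refl (Fin 4)) (finSumFinEquiv (m := 6) (n := 3))).trans
    (finSumFinEquiv (m := 4) (n := 9))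

section FF

variable {R : Type*} [CommRing R]

/-- the family, as matrices of size 13 -/
def FF (w : Pr → R) (i : Fin 3) : Matrix (Fin 13) (Fin 13) R :=
  (Phi w i).submatrix e13.symm e13.symm

theorem FF_mul (w : Pr → R) (i j : Fin 3) :
    FF w i * FF w j = (Phi w i * Phi w j).submatrix e13.symm e13.symm :=
  Matrix.submatrix_mul_equiv _ _ _ _ _

theorem FF_comm (w : Pr → R) (i j : Fin 3) : FF w i * FF w j = FF w j * FF w i := by
  rw [FF_mul, FF_mul, Phi_comm]

theorem FF_cube (w : Pr → R) (i j l : Fin 3) : FF w i * FF w j * FF w l = 0 := by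
  rw [FF_mul]
  unfold FF
  rw [Matrix.submatrix_mul_equiv, Phi_cube]
  rfl

theorem FF_nilp (w : Pr → R) (i : Fin 3) : IsNilpotent (FF w i) :=
  ⟨3, by rw [pow_succ, pow_two, FF_cube]⟩

theorem FF_map {S : Type*} [CommRing S] (f : R →+* S) (w : Pr → R) (i : Fin 3) (x y : Fin 13) :
    f (FF w i x y) = FF (fun t => f (w t)) i x y := by
  have h := congrFun (congrFun (Phi_map f w i) (e13.symm x)) (e13.symm y)
  exact h

end FF

variable {k : Type*} [Field k]

/-- generic matrices -/
noncomputable def Yg (k : Type*) [Field k] (i : Fin 3) :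
    Matrix (Fin 13) (Fin 13) (MvPolynomial (Fin 3 × Fin 13 × Fin 13) k) :=
  Matrix.of fun x y => X (i, x, y)

/-- an entry of the cube of the first generic matrix -/
noncomputable def Qg (k : Type*) [Field k] (x y : Fin 13) :
    MvPolynomial (Fin 3 × Fin 13 × Fin 13) k := (Yg k 0 * Yg k 0 * Yg k 0) x y

theorem Qg_aeval {B : Type*} [CommRing B] [Algebra k B] (Ψ : Fin 3 × Fin 13 × Fin 13 → B)
    (x y : Fin 13) : aeval Ψ (Qg k x y) =
      (Matrix.of (fun x y => Ψ (0, x, y)) * Matrix.of (fun x y => Ψ (0, x, y)) *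
        Matrix.of (fun x y => Ψ (0, x, y)) : Matrix (Fin 13) (Fin 13) B) x y := by
  unfold Qg Yg
  simp only [Matrix.mul_apply, Matrix.of_apply, map_sum, map_mul, aeval_X]

/-- the curvilinear triple of three equal Jordan blocks -/
theorem curv_J : Q5dc.Curv (fun _ : Fin 3 => TSQ.Jp k 13 1) := by
  refine ⟨TSQ.Jp k 13 1, ?_, ?_, fun i => ⟨Polynomial.X, by simp, by simp⟩⟩
  · rw [Fintype.card_fin, TSQ.jp_pow, TSQ.Jp_eq_zero _ (le_refl _)]
  · rw [Fintype.card_fin, TSQ.jp_pow]
    intro h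
    have := congrFun (congrFun h 12) 0
    simp [TSQ.Jp] at this

theorem eval_Qg : ∃ x y : Fin 13,
    eval (Q5dc.co (fun _ : Fin 3 => TSQ.Jp k 13 1)) (Qg k x y) ≠ 0 := by
  refine ⟨3, 0, ?_⟩
  have h : eval (Q5dc.co (fun _ : Fin 3 => TSQ.Jp k 13 1)) (Qg k 3 0) =
      (TSQ.Jp k 13 1 * TSQ.Jp k 13 1 * TSQ.Jp k 13 1) 3 0 := by
    have h1 := Qg_aeval (k := k) (B := k) (Q5dc.co (fun _ : Fin 3 => TSQ.Jp k 13 1)) 3 0
    rw [← MvPolynomial.coe_aeval_eq_eval]
    exact h1
  rw [h, TSQ.Jp_mul, TSQ.Jp_mul]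
  simp [TSQ.Jp]

/-- the main statement, with the dimension bound as hypothesis -/
theorem not_all_of_low [Infinite k] {B : Type*} [CommRing B] [IsDomain B] [Algebra k B]
    (hB : ∀ z : Option Pr → B, ¬ AlgebraicIndependent k z)
    (Ψ : Fin 3 × Fin 13 × Fin 13 → B)
    (hΨ : ∀ F : MvPolynomial (Fin 3 × Fin 13 × Fin 13) k, aeval Ψ F = 0 →
      ∀ T : Fin 3 → Matrix (Fin 13) (Fin 13) k, Q5dc.Curv T → eval (Q5dc.co T) F = 0) :
    ¬ ∀ T : Fin 3 → Matrix (Fin 13) (Fin 13) k, (∀ i j, T i * T j = T j * T i) →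
      (∀ i, IsNilpotent (T i)) → Q5dc.Cl T := by
  intro hall
  obtain ⟨a, b, hab⟩ := eval_Qg (k := k)
  refine dim_lemma (σ := Fin 3 × Fin 13 × Fin 13) hB Ψ
    (fun s => FF (X : Pr → MvPolynomial Pr k) s.1 s.2.1 s.2.2) ?_ (pt k) ?_ (Qg k a b) ?_ ?_
  · intro F hF
    apply MvPolynomial.funext
    intro w
    rw [map_zero]
    have h1 := hall (fun i => FF w i) (FF_comm w) (FF_nilp w) F (hΨ F hF)
    rw [← h1]
    have h2 : ((aeval w : MvPolynomial Pr k →ₐ[k] k).comp
        (aeval (fun s : Fin 3 × Fin 13 × Fin 13 =>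
          FF (X : Pr → MvPolynomial Pr k) s.1 s.2.1 s.2.2))) =
        (aeval (Q5dc.co fun i => FF w i) : MvPolynomial (Fin 3 × Fin 13 × Fin 13) k →ₐ[k] k) := by
      apply MvPolynomial.algHom_ext
      rintro ⟨i, x, y⟩
      simp only [AlgHom.comp_apply, aeval_X]
      have h3 := FF_map ((aeval w : MvPolynomial Pr k →ₐ[k] k) : MvPolynomial Pr k →+* k)
        (X : Pr → MvPolynomial Pr k) i x y
      have h4 : (fun t => ((aeval w : MvPolynomial Pr k →ₐ[k] k) : MvPolynomial Pr k →+* k)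
          ((X : Pr → MvPolynomial Pr k) t)) = w := by
        funext t
        exact aeval_X w t
      rw [h4] at h3
      have h6 : Q5dc.co (fun i => FF w i) (i, x, y) = FF w i x y := rfl
      rw [h6, ← h3]
      rfl
    have h5 := congrArg (fun f => f F) h2
    simp only [AlgHom.comp_apply] at h5
    exact h5
  · intro v hv
    apply jac
    intro i
    ext x y
    have h1 := hv (i, e13 x, e13 y)
    have h2 := FF_map ((aeval (line (pt k) v) : MvPolynomial Pr k →ₐ[k] Polynomial k) :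
      MvPolynomial Pr k →+* Polynomial k) (X : Pr → MvPolynomial Pr k) i (e13 x) (e13 y)
    have h4 : (fun t => ((aeval (line (pt k) v) : MvPolynomial Pr k →ₐ[k] Polynomial k) :
        MvPolynomial Pr k →+* Polynomial k) ((X : Pr → MvPolynomial Pr k) t)) =
        line (pt k) v := by
      funext t
      exact aeval_X _ t
    rw [h4] at h2
    have h5 : (FF (line (pt k) v) i (e13 x) (e13 y)).coeff 1 = 0 := by
      rw [← h2]
      exact h1
    unfold FF at h5
    rw [Matrix.submatrix_apply, Equiv.symm_apply_apply, Equiv.symm_apply_apply] at h5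
    unfold m1
    rw [Matrix.map_apply, Matrix.zero_apply]
    exact h5
  · rw [Qg_aeval]
    have h1 : (Matrix.of fun x y => (fun s : Fin 3 × Fin 13 × Fin 13 =>
        FF (X : Pr → MvPolynomial Pr k) s.1 s.2.1 s.2.2) (0, x, y)) =
        FF (X : Pr → MvPolynomial Pr k) 0 := by
      refine Matrix.ext fun x y => ?_
      rw [Matrix.of_apply]
    rw [h1, FF_cube, Matrix.zero_apply]
  · intro h
    exact hab (hΨ _ h _ curv_J)

/-- the corresponding statement for the punctual Quot scheme -/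
theorem not_irreducible_of_low [Infinite k] {B : Type*} [CommRing B] [IsDomain B] [Algebra k B]
    (hB : ∀ z : Option Pr → B, ¬ AlgebraicIndependent k z)
    (Ψ : Fin 3 × Fin 13 × Fin 13 → B)
    (hΨ : ∀ F : MvPolynomial (Fin 3 × Fin 13 × Fin 13) k, aeval Ψ F = 0 →
      ∀ T : Fin 3 → Matrix (Fin 13) (Fin 13) k, Q5dc.Curv T → eval (Q5dc.co T) F = 0)
    {r : ℕ} (hr : 13 ≤ r) :
    ¬ IsPreirreducible (Set.univ : Set (TSQ.PQuot k r 13)) := by
  intro h
  refine not_all_of_low hB Ψ hΨ fun T hT hn => ?_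
  exact TSQ.cl_of_irreducible (by norm_num) hr h T hT hn

end Pool.Agent.Lib.D13R
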