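import Pool.Agent.Lib.D13R.Fam
import Pool.Agent.Lib.D13R.Alg

/-!
# The family of commuting nilpotent triples of type (4,6,3), with 180 parameters
-/

set_option autoImplicit false

namespace Pool.Agent.Lib.D13R

open Matrix

universe u

variable {R : Type u} [CommRing R]

/-- the parameters -/
abbrev Pr : Type := (Fin 3 × Fin 6 × Fin 4) ⊕ (Fin 3 × Fin 3 × Fin 4) ⊕ (Fin 3 × Fin 6) ⊕
  (Fin 4 × Fin 6) ⊕ (Fin 4 × Fin 3) ⊕ (Fin 6 × Fin 3)

theorem card_Pr : Fintype.card Pr = 180 := by simp [Pr]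

/-- the parameters of `P` -/
def pP (w : Pr → R) (i : Fin 3) : Matrix (Fin 6) (Fin 4) R :=
  Matrix.of fun l j => w (Sum.inl (i, l, j))
/-- the parameters of the lower left corner -/
def pR (w : Pr → R) (i : Fin 3) : Matrix (Fin 3) (Fin 4) R :=
  Matrix.of fun m j => w (Sum.inr (Sum.inl (i, m, j)))
/-- the parameters of `Q` -/
def pc (w : Pr → R) : Matrix (Fin 3) (Fin 6) R :=
  Matrix.of fun m r => w (Sum.inr (Sum.inr (Sum.inl (m, r))))
/-- the parameters of the unipotent matrix -/
def pA (w : Pr → R) : Matrix (Fin 4) (Fin 6) R :=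
  Matrix.of fun x y => w (Sum.inr (Sum.inr (Sum.inr (Sum.inl (x, y)))))
/-- the parameters of the unipotent matrix -/
def pB (w : Pr → R) : Matrix (Fin 4) (Fin 3) R :=
  Matrix.of fun x y => w (Sum.inr (Sum.inr (Sum.inr (Sum.inr (Sum.inl (x, y))))))
/-- the parameters of the unipotent matrix -/
def pC (w : Pr → R) : Matrix (Fin 6) (Fin 3) R :=
  Matrix.of fun x y => w (Sum.inr (Sum.inr (Sum.inr (Sum.inr (Sum.inr (x, y))))))

/-- the solution of the linear system -/
def qq (P : Fin 3 → Matrix (Fin 6) (Fin 4) R) (c : Matrix (Fin 3) (Fin 6) R) :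
    Matrix (Fin 3) (Fin 3 × Fin 6) R :=
  (rho R * Lam P).det • (c * Kk R) - c * Kk R * Lam P * ((rho R * Lam P).adjugate * rho R)

theorem qq_sol (P : Fin 3 → Matrix (Fin 6) (Fin 4) R) (c : Matrix (Fin 3) (Fin 6) R) :
    qq P c * Lam P = 0 := by
  unfold qq
  rw [Matrix.sub_mul, Matrix.smul_mul, Matrix.mul_assoc (c * Kk R * Lam P),
    Matrix.mul_assoc _ (rho R) (Lam P), Matrix.adjugate_mul, Matrix.mul_smul, Matrix.mul_one,
    sub_self]

theorem qq_base (P : Fin 3 → Matrix (Fin 6) (Fin 4) R) (c : Matrix (Fin 3) (Fin 6) R)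
    (h1 : rho R * Lam P = 1) (h2 : Kk R * Lam P = 0) : qq P c = c * Kk R := by
  unfold qq
  rw [h1, Matrix.det_one, one_smul, Matrix.mul_assoc c, h2, Matrix.mul_zero, Matrix.zero_mul,
    sub_zero]

/-- the lower triangular triple -/
def Th (w : Pr → R) (i : Fin 3) : Matrix Ix Ix R :=
  lowT (pP w i) (pR w i) (Qof (qq (pP w) (pc w)) i)

/-- the unipotent matrix is `1 + Nu w` -/
def Nu (w : Pr → R) : Matrix Ix Ix R := upN (pA w) (pB w) (pC w)

/-- the family -/
def Phi (w : Pr → R) (i : Fin 3) : Matrix Ix Ix R :=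
  (1 + Nu w) * Th w i * (1 - Nu w + Nu w * Nu w)

theorem Th_comm (w : Pr → R) (i j : Fin 3) : Th w i * Th w j = Th w j * Th w i := by
  unfold Th
  rw [lowT_mul, lowT_mul, Lam_sol' (pP w) _ (qq_sol _ _) i j]

theorem Phi_mul (w : Pr → R) (i j : Fin 3) :
    Phi w i * Phi w j = (1 + Nu w) * (Th w i * Th w j) * (1 - Nu w + Nu w * Nu w) := by
  have h := (unip (pA w) (pB w) (pC w)).2
  have h' : (1 - Nu w + Nu w * Nu w) * (1 + Nu w) = 1 := h
  unfold Phi
  calc (1 + Nu w) * Th w i * (1 - Nu w + Nu w * Nu w) *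
        ((1 + Nu w) * Th w j * (1 - Nu w + Nu w * Nu w))
      = (1 + Nu w) * Th w i * ((1 - Nu w + Nu w * Nu w) * (1 + Nu w)) * Th w j *
        (1 - Nu w + Nu w * Nu w) := by simp only [Matrix.mul_assoc]
    _ = _ := by rw [h', Matrix.mul_one]; simp only [Matrix.mul_assoc]

theorem Phi_comm (w : Pr → R) (i j : Fin 3) : Phi w i * Phi w j = Phi w j * Phi w i := by
  rw [Phi_mul, Phi_mul, Th_comm]

theorem Phi_cube (w : Pr → R) (i j l : Fin 3) : Phi w i * Phi w j * Phi w l = 0 := by
  have h := (unip (pA w) (pB w) (pC w)).2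
  have h' : (1 - Nu w + Nu w * Nu w) * (1 + Nu w) = 1 := h
  have h3 : Th w i * Th w j * Th w l = 0 := lowT_cube _ _ _ _ _ _ _ _ _
  rw [Phi_mul]
  unfold Phi
  calc (1 + Nu w) * (Th w i * Th w j) * (1 - Nu w + Nu w * Nu w) *
        ((1 + Nu w) * Th w l * (1 - Nu w + Nu w * Nu w))
      = (1 + Nu w) * (Th w i * Th w j) * ((1 - Nu w + Nu w * Nu w) * (1 + Nu w)) * Th w l *
        (1 - Nu w + Nu w * Nu w) := by simp only [Matrix.mul_assoc]
    _ = (1 + Nu w) * (Th w i * Th w j * Th w l) * (1 - Nu w + Nu w * Nu w) := by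
      rw [h', Matrix.mul_one]; simp only [Matrix.mul_assoc]
    _ = 0 := by rw [h3, Matrix.mul_zero, Matrix.zero_mul]

section map

variable {S : Type*} [CommRing S] (f : R →+* S)

theorem Ia_map : (Ia R).map f = Ia S := by
  ext x j; simp only [Ia, Matrix.map_apply, Matrix.of_apply]; split_ifs <;> simp
theorem Ib_map : (Ib R).map f = Ib S := by
  ext x j; simp only [Ib, Matrix.map_apply, Matrix.of_apply]; split_ifs <;> simp
theorem Ic_map : (Ic R).map f = Ic S := by
  ext x j; simp only [Ic, Matrix.map_apply, Matrix.of_apply]; split_ifs <;> simp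
theorem tr_map {m n : Type*} (M : Matrix m n R) : Mᵀ.map f = (M.map f)ᵀ := rfl

theorem Pa_map : (Pa R).map f = Pa S := by
  unfold Pa; rw [tr_map, Ia_map]
theorem Pb_map : (Pb R).map f = Pb S := by
  unfold Pb; rw [tr_map, Ib_map]
theorem Pc_map : (Pc R).map f = Pc S := by
  unfold Pc; rw [tr_map, Ic_map]
theorem rho_map : (rho R).map f = rho S := by
  ext x j; simp only [rho, Matrix.map_apply, Matrix.of_apply]; split_ifs <;> simp
theorem Kk_map : (Kk R).map f = Kk S := by
  ext x j; simp only [Kk, Matrix.map_apply, Matrix.of_apply]; split_ifs <;> simp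
theorem P0_map (i : Fin 3) : (P0 R i).map f = P0 S i := by
  ext x j; simp only [P0, Matrix.map_apply, Matrix.of_apply]; split_ifs <;> simp
theorem Sec_map (i : Fin 3) : (Sec R i).map f = Sec S i := by
  ext x j; simp only [Sec, Matrix.map_apply, Matrix.of_apply]; split_ifs <;> simp
theorem cc0_map : (cc0 R).map f = cc0 S := by
  ext x j; simp only [cc0, Matrix.map_apply, Matrix.of_apply]; split_ifs <;> simp

theorem Lam_map (P : Fin 3 → Matrix (Fin 6) (Fin 4) R) :
    (Lam P).map f = Lam fun i => (P i).map f := by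
  ext x y
  simp only [Lam, Matrix.map_apply, Matrix.of_apply, map_sub]
  congr 1
  · split_ifs <;> simp
  · split_ifs <;> simp

theorem add_map {m n : Type*} (M N : Matrix m n R) : (M + N).map f = M.map f + N.map f := by
  ext i j; simp
theorem sub_map {m n : Type*} (M N : Matrix m n R) : (M - N).map f = M.map f - N.map f := by
  ext i j; simp
theorem smul_map {m n : Type*} (r : R) (M : Matrix m n R) : (r • M).map f = f r • M.map f := by
  ext i j; simp

theorem lowT_map (P : Matrix (Fin 6) (Fin 4) R) (Q' : Matrix (Fin 3) (Fin 4) R)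
    (Q : Matrix (Fin 3) (Fin 6) R) :
    (lowT P Q' Q).map f = lowT (P.map f) (Q'.map f) (Q.map f) := by
  unfold lowT
  rw [add_map, add_map]
  simp only [Matrix.map_mul, Ib_map, Ic_map, Pa_map, Pb_map]

theorem upN_map (A : Matrix (Fin 4) (Fin 6) R) (B : Matrix (Fin 4) (Fin 3) R)
    (C : Matrix (Fin 6) (Fin 3) R) :
    (upN A B C).map f = upN (A.map f) (B.map f) (C.map f) := by
  unfold upN
  rw [add_map, add_map]
  simp only [Matrix.map_mul, Ib_map, Ia_map, Pc_map, Pb_map]

theorem Qof_map (q : Matrix (Fin 3) (Fin 3 × Fin 6) R) (i : Fin 3) :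
    (Qof q i).map f = Qof (q.map f) i := rfl

theorem qq_map (P : Fin 3 → Matrix (Fin 6) (Fin 4) R) (c : Matrix (Fin 3) (Fin 6) R) :
    (qq P c).map f = qq (fun i => (P i).map f) (c.map f) := by
  unfold qq
  have h1 : ((rho R * Lam P).map f) = rho S * Lam fun i => (P i).map f := by
    rw [Matrix.map_mul, rho_map, Lam_map]
  have h2 : f (rho R * Lam P).det = (rho S * Lam fun i => (P i).map f).det := by
    rw [← h1]
    exact RingHom.map_det f _
  have h3 : (rho R * Lam P).adjugate.map f =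
      (rho S * Lam fun i => (P i).map f).adjugate := by
    rw [← h1]
    exact RingHom.map_adjugate f _
  rw [sub_map, smul_map, h2]
  simp only [Matrix.map_mul, Kk_map, Lam_map, rho_map, h3]

theorem Th_map (w : Pr → R) (i : Fin 3) : (Th w i).map f = Th (fun t => f (w t)) i := by
  unfold Th
  rw [lowT_map, Qof_map, qq_map]
  rfl

theorem Nu_map (w : Pr → R) : (Nu w).map f = Nu (fun t => f (w t)) := by
  unfold Nu
  rw [upN_map]
  rfl

theorem one_map' : ((1 : Matrix Ix Ix R)).map f = 1 := by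
  rw [Matrix.map_one f (map_zero f) (map_one f)]

theorem Phi_map (w : Pr → R) (i : Fin 3) : (Phi w i).map f = Phi (fun t => f (w t)) i := by
  unfold Phi
  rw [Matrix.map_mul, Matrix.map_mul, add_map, add_map, sub_map, Matrix.map_mul, one_map',
    Nu_map, Th_map]

end map

section base

theorem rho_P0 (R : Type u) [CommRing R] : rho R * Lam (P0 R) = 1 := by
  have h := congrArg (fun M => M.map (Int.castRingHom R)) rho_int
  simp only [Matrix.map_mul, rho_map, Lam_map, P0_map] at h
  rw [h]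
  exact Matrix.map_one _ (map_zero _) (map_one _)

theorem Kk_P0 (R : Type u) [CommRing R] : Kk R * Lam (P0 R) = 0 := by
  have h := congrArg (fun M => M.map (Int.castRingHom R)) Kk_int
  simp only [Matrix.map_mul, Kk_map, Lam_map, P0_map] at h
  rw [h]
  exact Matrix.map_zero _ (map_zero _)

theorem KkT (R : Type u) [CommRing R] : Kk R * (Kk R)ᵀ = 1 := by
  have h := congrArg (fun M => M.map (Int.castRingHom R)) KkT_int
  simp only [Matrix.map_mul, Kk_map, tr_map] at h
  rw [h]
  exact Matrix.map_one _ (map_zero _) (map_one _)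

theorem Sec_P0 (R : Type u) [CommRing R] : ∑ i, P0 R i * Sec R i = 1 := by
  have h := congrArg (fun M => M.map (Int.castRingHom R)) Sec_int
  simp only [Fin.sum_univ_three, add_map, Matrix.map_mul, P0_map, Sec_map] at h
  rw [Fin.sum_univ_three, h]
  exact Matrix.map_one _ (map_zero _) (map_one _)

theorem cc0_base (R : Type u) [CommRing R] :
    ∑ i, Qof (cc0 R * Kk R) i * (Qof (cc0 R * Kk R) i)ᵀ = 1 := by
  have h := congrArg (fun M => M.map (Int.castRingHom R)) cc0_int
  simp only [Fin.sum_univ_three, add_map, Matrix.map_mul, Qof_map, tr_map,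
    cc0_map, Kk_map] at h
  rw [Fin.sum_univ_three, h]
  exact Matrix.map_one _ (map_zero _) (map_one _)

end base

end Pool.Agent.Lib.D13R
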