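import Pool.Agent.Lib.D13R.Main

/-!
# The final statement, from its two parts
-/

set_option autoImplicit false

namespace Pool.Agent.Lib.D13R

open Pool.Agent.Lib.TSQ

universe u

/-- The final statement from: (1) all commuting nilpotent triples of size `d ≤ 12` are limits of
curvilinear triples; (2) the dimension bound for the curvilinear triples of size `13`. -/
theorem isLeast_of {k : Type u} [Field k] [Infinite k]
    (h12 : ∀ d : ℕ, 0 < d → d ≤ 12 → ∀ A : Fin 3 → Matrix (Fin d) (Fin d) k,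
      (∀ i j, A i * A j = A j * A i) → (∀ i, IsNilpotent (A i)) → Q5dc.Cl A)
    {B : Type*} [CommRing B] [IsDomain B] [Algebra k B]
    (hB : ∀ z : Option Pr → B, ¬ AlgebraicIndependent k z)
    (Ψ : Fin 3 × Fin 13 × Fin 13 → B)
    (hΨ : ∀ F : MvPolynomial (Fin 3 × Fin 13 × Fin 13) k, MvPolynomial.aeval Ψ F = 0 →
      ∀ T : Fin 3 → Matrix (Fin 13) (Fin 13) k, Q5dc.Curv T →
        MvPolynomial.eval (Q5dc.co T) F = 0) :
    IsLeast {d : ℕ | 1 ≤ d ∧ ∃ r : ℕ, 1 ≤ r ∧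
      ¬ IsIrreducible (Set.univ : Set (PQuot k r d))} 13 := by
  refine ⟨⟨by norm_num, 13, by norm_num, fun h => ?_⟩, ?_⟩
  · exact not_irreducible_of_low hB Ψ hΨ (le_refl 13) h.isPreirreducible
  · rintro d ⟨hd, r, hr, hirr⟩
    by_contra hlt
    push Not at hlt
    exact hirr (irreducible_of_cl hr hd (h12 d hd (by omega)))

/-- The whole statement for all degrees up to 12 and all `r`, with density of the curvilinear
locus, and reducibility for `d = 13` and all `r ≥ 13`. -/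
theorem full_of {k : Type u} [Field k] [Infinite k]
    (h12 : ∀ d : ℕ, 0 < d → d ≤ 12 → ∀ A : Fin 3 → Matrix (Fin d) (Fin d) k,
      (∀ i j, A i * A j = A j * A i) → (∀ i, IsNilpotent (A i)) → Q5dc.Cl A)
    {B : Type*} [CommRing B] [IsDomain B] [Algebra k B]
    (hB : ∀ z : Option Pr → B, ¬ AlgebraicIndependent k z)
    (Ψ : Fin 3 × Fin 13 × Fin 13 → B)
    (hΨ : ∀ F : MvPolynomial (Fin 3 × Fin 13 × Fin 13) k, MvPolynomial.aeval Ψ F = 0 →
      ∀ T : Fin 3 → Matrix (Fin 13) (Fin 13) k, Q5dc.Curv T →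
        MvPolynomial.eval (Q5dc.co T) F = 0) :
    IsLeast {d : ℕ | 1 ≤ d ∧ ∃ r : ℕ, 1 ≤ r ∧
      ¬ IsIrreducible (Set.univ : Set (PQuot k r d))} 13 ∧
    (∀ r d : ℕ, 1 ≤ r → 1 ≤ d → d ≤ 12 →
      IsIrreducible (Set.univ : Set (PQuot k r d)) ∧ Dense (Curv k r d)) ∧
    (∀ r : ℕ, 13 ≤ r → ¬ IsIrreducible (Set.univ : Set (PQuot k r 13))) := by
  refine ⟨isLeast_of h12 hB Ψ hΨ, fun r d hr hd hd' => ?_, fun r hr h => ?_⟩
  · exact ⟨irreducible_of_cl hr hd (h12 d hd hd'),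
      dense_iff_closure_eq.2 (closure_univ_of_cl hr hd (h12 d hd hd'))⟩
  · exact not_irreducible_of_low hB Ψ hΨ hr h.isPreirreducible

end Pool.Agent.Lib.D13R
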